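import Pool.Agent.N357.KRK.Defs

namespace Pool.Agent.N357.KRK

variable {m n m' n' : ℕ∞}

theorem WinsWithin.toCanForce : ∀ (k : ℕ) (p : Pos), WinsWithin m n k p → CanForce m n p := by
  intro k
  induction k with
  | zero => intro p h; exact h.elim
  | succ k ih =>
    rintro p ⟨q, h1, h2, h3, h4, h5⟩
    exact CanForce.step p q h1 h2 h3 h4 (fun r hr => ih r (h5 r hr))

theorem WinsWithin.succ : ∀ (k : ℕ) (p : Pos), WinsWithin m n k p → WinsWithin m n (k + 1) p := by
  intro k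
  induction k with
  | zero => intro p h; exact h.elim
  | succ k ih =>
    rintro p ⟨q, h1, h2, h3, h4, h5⟩
    exact ⟨q, h1, h2, h3, h4, (fun r hr => ih r (h5 r hr))⟩

theorem WinsWithin.mono_right {k l : ℕ} (hkl : k ≤ l) {p : Pos} (h : WinsWithin m n k p) :
    WinsWithin m n l p := by
  induction hkl with
  | refl => exact h
  | step _ ih => exact WinsWithin.succ _ _ ih

theorem OnBoard.mono (hm : m ≤ m') (hn : n ≤ n') {s : Sq} (h : OnBoard m n s) :
    OnBoard m' n' s :=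
  ⟨h.1, h.2.1, h.2.2.1.trans hm, h.2.2.2.trans hn⟩

theorem WhiteMove.mono (hm : m ≤ m') (hn : n ≤ n') {p q : Pos} (h : WhiteMove m n p q) :
    WhiteMove m' n' p q := by
  obtain ⟨h0, h | h⟩ := h
  · exact ⟨h0, Or.inl ⟨h.1, h.2.1, h.2.2.1, h.2.2.2.1.mono hm hn, h.2.2.2.2⟩⟩
  · exact ⟨h0, Or.inr ⟨h.1, h.2.1, h.2.2.1, h.2.2.2.1.mono hm hn, h.2.2.2.2⟩⟩

/-- Facts about a position in which the Black king cannot leave the smaller board. -/
theorem noExit_lt {q : Pos} (hb : OnBoard m n q.bk) (h : ¬ CanExit m n q) :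
    (q.bk.1 : ℕ∞) < m ∧ (q.bk.2 : ℕ∞) < n := by
  unfold CanExit at h
  push Not at h
  exact ⟨lt_of_le_of_ne hb.2.2.1 h.1, lt_of_le_of_ne hb.2.2.2 h.2⟩

theorem onBoard_of_touch {q : Pos} (hb : OnBoard m n q.bk) (h : ¬ CanExit m n q) {t : Sq}
    (ht : Touch q.bk t) (hb' : OnBoard m' n' t) : OnBoard m n t := by
  obtain ⟨h1, h2⟩ := noExit_lt hb h
  refine ⟨hb'.1, hb'.2.1, ?_, ?_⟩
  · have : ((t.1 : ℕ) : ℕ∞) ≤ ((q.bk.1 + 1 : ℕ) : ℕ∞) := by exact_mod_cast ht.2.1
    refine this.trans ?_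
    push_cast
    exact Order.add_one_le_of_lt h1
  · have : ((t.2 : ℕ) : ℕ∞) ≤ ((q.bk.2 + 1 : ℕ) : ℕ∞) := by exact_mod_cast ht.2.2.2
    refine this.trans ?_
    push_cast
    exact Order.add_one_le_of_lt h2

theorem BlackMove.restrict {q r : Pos} (hb : OnBoard m n q.bk)
    (hx : ¬ CanExit m n q) (h : BlackMove m' n' q r) : BlackMove m n q r :=
  ⟨h.1, h.2.1, h.2.2.1, h.2.2.2.1, onBoard_of_touch hb hx h.2.2.2.1 h.2.2.2.2.1,
    h.2.2.2.2.2⟩

theorem BlackMove.mono (hm : m ≤ m') (hn : n ≤ n') {q r : Pos} (h : BlackMove m n q r) :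
    BlackMove m' n' q r :=
  ⟨h.1, h.2.1, h.2.2.1, h.2.2.2.1, h.2.2.2.2.1.mono hm hn, h.2.2.2.2.2⟩

theorem CanExit.restrict (hm : m ≤ m') (hn : n ≤ n') {q : Pos} (hb : OnBoard m n q.bk)
    (hx : ¬ CanExit m n q) : ¬ CanExit m' n' q := by
  obtain ⟨h1, h2⟩ := noExit_lt hb hx
  rintro (h | h)
  · exact absurd h (h1.trans_le hm).ne
  · exact absurd h (h2.trans_le hn).ne

theorem WinsWithin.mono_board (hm : m ≤ m') (hn : n ≤ n') : ∀ (k : ℕ) (p : Pos),
    OnBoard m n p.bk → WinsWithin m n k p → WinsWithin m' n' k p := by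
  intro k
  induction k with
  | zero => intro p _ h; exact h.elim
  | succ k ih =>
    rintro p hb ⟨q, h1, h2, h3, h4, h5⟩
    have hq : OnBoard m n q.bk := by rw [h1.1]; exact hb
    refine ⟨q, h1.mono hm hn, CanExit.restrict hm hn hq h2, ?_, ?_, ?_⟩
    · exact h3.imp id (fun ⟨r, hr⟩ => ⟨r, hr.mono hm hn⟩)
    · exact fun r hr => h4 r (hr.restrict hq h2)
    · exact fun r hr => ih r (hr.restrict hq h2).2.2.2.2.1 (h5 r (hr.restrict hq h2))

theorem CanForce.mono_board (hm : m ≤ m') (hn : n ≤ n') {p : Pos} (h : CanForce m n p) :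
    OnBoard m n p.bk → CanForce m' n' p := by
  induction h with
  | step p q h1 h2 h3 h4 _ ih =>
    intro hb
    have hq : OnBoard m n q.bk := by rw [h1.1]; exact hb
    refine CanForce.step p q (h1.mono hm hn) (CanExit.restrict hm hn hq h2) ?_ ?_ ?_
    · exact h3.imp id (fun ⟨r, hr⟩ => ⟨r, hr.mono hm hn⟩)
    · exact fun r hr => h4 r (hr.restrict hq h2)
    · exact fun r hr => ih r (hr.restrict hq h2) (hr.restrict hq h2).2.2.2.2.1

/-! ### Reflection in the diagonal -/

/-- Reflect a position in the main diagonal. -/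
def Pos.refl (p : Pos) : Pos := ⟨p.wk.swap, p.wr.swap, p.bk.swap⟩

@[simp] theorem Pos.refl_refl (p : Pos) : p.refl.refl = p := by
  cases p; simp [Pos.refl]

theorem OnBoard.swap {s : Sq} (h : OnBoard m n s) : OnBoard n m s.swap :=
  ⟨h.2.1, h.1, h.2.2.2, h.2.2.1⟩

theorem touch_swap {s t : Sq} : Touch s.swap t.swap ↔ Touch s t := by
  simp only [Touch, Prod.fst_swap, Prod.snd_swap]; tauto

theorem between_swap {a b c : Sq} : Between a.swap b.swap c.swap ↔ Between a b c := by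
  simp only [Between, Prod.fst_swap, Prod.snd_swap]; tauto

theorem swap_ne {s t : Sq} (h : s ≠ t) : s.swap ≠ t.swap := fun h' => h (Prod.swap_injective h')

theorem rookAttacks_refl {p : Pos} {t : Sq} : RookAttacks p.refl t.swap ↔ RookAttacks p t := by
  simp only [RookAttacks, Pos.refl, between_swap, Prod.fst_swap, Prod.snd_swap,
    ne_eq, Prod.swap_inj]
  tauto

theorem WhiteMove.refl {p q : Pos} (h : WhiteMove m n p q) : WhiteMove n m p.refl q.refl := by
  obtain ⟨h0, h | h⟩ := h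
  · refine ⟨by simp [Pos.refl, h0], Or.inl ⟨by simp [Pos.refl, h.1], swap_ne h.2.1,
      touch_swap.2 h.2.2.1, h.2.2.2.1.swap, swap_ne h.2.2.2.2.1, ?_⟩⟩
    exact fun h' => h.2.2.2.2.2 (touch_swap.1 h')
  · refine ⟨by simp [Pos.refl, h0], Or.inr ⟨by simp [Pos.refl, h.1], swap_ne h.2.1,
      h.2.2.1.symm, h.2.2.2.1.swap, swap_ne h.2.2.2.2.1, swap_ne h.2.2.2.2.2.1, ?_, ?_⟩⟩
    · exact fun h' => h.2.2.2.2.2.2.1 (between_swap.1 h')
    · exact fun h' => h.2.2.2.2.2.2.2 (between_swap.1 h')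

theorem BlackMove.refl {q r : Pos} (h : BlackMove m n q r) : BlackMove n m q.refl r.refl := by
  refine ⟨by simp [Pos.refl, h.1], by simp [Pos.refl, h.2.1], swap_ne h.2.2.1,
    touch_swap.2 h.2.2.2.1, h.2.2.2.2.1.swap, ?_, ?_⟩
  · exact fun h' => h.2.2.2.2.2.1 (touch_swap.1 h')
  · exact fun h' => h.2.2.2.2.2.2 (rookAttacks_refl.1 h')

theorem blackMove_of_refl {q r : Pos} (h : BlackMove n m q.refl r) : BlackMove m n q r.refl := by
  have := h.refl
  rwa [Pos.refl_refl] at this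

theorem CanExit.refl {q : Pos} (h : CanExit n m q.refl) : CanExit m n q := h.symm

theorem InCheck.refl {q : Pos} (h : InCheck q) : InCheck q.refl := rookAttacks_refl.2 h

theorem WinsWithin.refl : ∀ (k : ℕ) (p : Pos),
    WinsWithin m n k p → WinsWithin n m k p.refl := by
  intro k
  induction k with
  | zero => intro p h; exact h.elim
  | succ k ih =>
    rintro p ⟨q, h1, h2, h3, h4, h5⟩
    refine ⟨q.refl, h1.refl, fun h => h2 h.refl, ?_, ?_, ?_⟩
    · exact h3.imp InCheck.refl (fun ⟨r, hr⟩ => ⟨r.refl, hr.refl⟩)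
    · intro r hr h
      refine h4 _ (blackMove_of_refl hr) ?_
      simp only [Pos.refl] at h ⊢
      rw [h, Prod.swap_swap]
    · intro r hr
      have := ih _ (h5 _ (blackMove_of_refl hr))
      rwa [Pos.refl_refl] at this

theorem CanForce.refl {p : Pos} (h : CanForce m n p) : CanForce n m p.refl := by
  induction h with
  | step p q h1 h2 h3 h4 _ ih =>
    refine CanForce.step _ q.refl h1.refl (fun h => h2 h.refl) ?_ ?_ ?_
    · exact h3.imp InCheck.refl (fun ⟨r, hr⟩ => ⟨r.refl, hr.refl⟩)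
    · intro r hr h
      refine h4 _ (blackMove_of_refl hr) ?_
      simp only [Pos.refl] at h ⊢
      rw [h, Prod.swap_swap]
    · intro r hr
      have := ih _ (blackMove_of_refl hr)
      rwa [Pos.refl_refl] at this

theorem start_refl : start.refl = start := rfl

/-- A set of positions that Black can maintain shows that White cannot force checkmate. -/
theorem not_canForce_of_invariant (I : Pos → Prop)
    (hI : ∀ p q, I p → WhiteMove m n p q →
      CanExit m n q ∨ ∃ r, BlackMove m n q r ∧ (r.bk = q.wr ∨ I r)) {p : Pos} (hp : I p) :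
    ¬ CanForce m n p := by
  intro h
  induction h with
  | step p q h1 h2 h3 h4 _ ih =>
    rcases hI p q hp h1 with h | ⟨r, hr, h | h⟩
    · exact h2 h
    · exact h4 r hr h
    · exact ih r hr h

end Pool.Agent.N357.KRK
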