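import Pool.Agent.N357.KRK.NegSound
import Pool.Agent.N357.KRK.Tab10

/-! # Black holds on the `10 × 10` board -/

namespace Pool.Agent.N357.KRK.Neg

theorem check10 : check 10 10 3 true (tabMem 7 tab10) = true := by decide +kernel

theorem start10 : Inv 10 10 3 true (tabMem 7 tab10) start := by
  refine ⟨?_, ?_⟩
  · constructor <;> decide
  · unfold AMem; decide +kernel

theorem not_canForce_ten : ¬ CanForce 10 10 start :=
  not_canForce (m := 10) (Y := 10) (D := 3) (fin := true) (by decide) (by decide) check10 start10

end Pool.Agent.N357.KRK.Neg
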