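import Pool.Agent.N357.KRK.NegSound
import Pool.Agent.N357.KRK.Tab8

/-! # Black holds on the board with `8` files and infinitely many ranks -/

namespace Pool.Agent.N357.KRK.Neg

theorem check8 : check 8 3 4 false (tabMem 9 tab8) = true := by decide +kernel

theorem start8 : Inv 8 3 4 false (tabMem 9 tab8) start := by
  refine ⟨?_, ?_⟩
  · constructor <;> decide
  · unfold AMem; decide +kernel

theorem not_canForce_eight : ¬ CanForce 8 ⊤ start :=
  not_canForce (m := 8) (Y := 3) (D := 4) (fin := false) (by decide) (by decide) check8 start8

end Pool.Agent.N357.KRK.Neg
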