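import Pool.Agent.N357.KRK.Win9x11
import Pool.Agent.N357.KRK.Neg10
import Pool.Agent.N357.KRK.Neg8

/-! # The boards on which White can force checkmate -/

namespace Pool.Agent.N357.KRK

theorem start_onBoard {m n : ℕ∞} (hm : 3 ≤ m) (hn : 3 ≤ n) : OnBoard m n start.bk :=
  ⟨by decide, by decide, hm, hn⟩

theorem winsWithin_of_big {m n : ℕ∞} (h : (9 ≤ m ∧ 11 ≤ n) ∨ (11 ≤ m ∧ 9 ≤ n)) :
    WinsWithin m n 39 start := by
  have hb : OnBoard 9 11 start.bk := start_onBoard (by decide) (by decide)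
  rcases h with ⟨h1, h2⟩ | ⟨h1, h2⟩
  · exact Win.winsWithin_nine_eleven.mono_board h1 h2 _ _ hb
  · have := (Win.winsWithin_nine_eleven.mono_board h2 h1 _ _ hb).refl
    rwa [start_refl] at this

theorem not_canForce_of_small {m n : ℕ∞} (hm : 3 ≤ m) (hn : 3 ≤ n)
    (h : ¬ ((9 ≤ m ∧ 11 ≤ n) ∨ (11 ≤ m ∧ 9 ≤ n))) : ¬ CanForce m n start := by
  intro hf
  have key : ∀ a : ℕ∞, ∀ k : ℕ, ¬ ((k + 1 : ℕ) : ℕ∞) ≤ a → a ≤ (k : ℕ∞) := by
    intro a k hk
    rw [not_le] at hk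
    push_cast at hk
    exact Order.le_of_lt_add_one hk
  by_cases h8 : m ≤ 8
  · exact Neg.not_canForce_eight (hf.mono_board h8 le_top (start_onBoard hm hn))
  by_cases h8' : n ≤ 8
  · have := hf.refl
    rw [start_refl] at this
    exact Neg.not_canForce_eight (this.mono_board h8' le_top (start_onBoard hn hm))
  have m9 : 9 ≤ m := by
    by_contra hc
    exact h8 (key m 8 hc)
  have n9 : 9 ≤ n := by
    by_contra hc
    exact h8' (key n 8 hc)
  have m10 : m ≤ 10 := key m 10 (fun hc => h (Or.inr ⟨hc, n9⟩))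
  have n10 : n ≤ 10 := key n 10 (fun hc => h (Or.inl ⟨m9, hc⟩))
  exact Neg.not_canForce_ten (hf.mono_board m10 n10 (start_onBoard hm hn))

theorem canForce_iff {m n : ℕ∞} (hm : 3 ≤ m) (hn : 3 ≤ n) :
    CanForce m n start ↔ (9 ≤ m ∧ 11 ≤ n) ∨ (11 ≤ m ∧ 9 ≤ n) := by
  constructor
  · intro h
    by_contra hc
    exact not_canForce_of_small hm hn hc h
  · intro h
    exact (winsWithin_of_big h).toCanForce _ _

end Pool.Agent.N357.KRK
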