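import Mathlib

/-!
# King and rook against king on a (possibly infinite) quarter board: definitions
-/

namespace Pool.Agent.N357.KRK

/-- A square `(file, rank)`; files and ranks are counted from `1`. -/
abbrev Sq := ℕ × ℕ

/-- The square `s` lies on the board with `m` files and `n` ranks
(`m = ⊤` / `n = ⊤`: infinitely many files / ranks). -/
def OnBoard (m n : ℕ∞) (s : Sq) : Prop :=
  1 ≤ s.1 ∧ 1 ≤ s.2 ∧ (s.1 : ℕ∞) ≤ m ∧ (s.2 : ℕ∞) ≤ n

/-- The squares `s` and `t` are equal or one king's move apart. -/
def Touch (s t : Sq) : Prop :=
  s.1 ≤ t.1 + 1 ∧ t.1 ≤ s.1 + 1 ∧ s.2 ≤ t.2 + 1 ∧ t.2 ≤ s.2 + 1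

/-- The squares `a`, `c`, `b` lie on one file or on one rank, with `c` strictly between
`a` and `b`. -/
def Between (a c b : Sq) : Prop :=
  (a.1 = c.1 ∧ c.1 = b.1 ∧ (a.2 < c.2 ∧ c.2 < b.2 ∨ b.2 < c.2 ∧ c.2 < a.2)) ∨
  (a.2 = c.2 ∧ c.2 = b.2 ∧ (a.1 < c.1 ∧ c.1 < b.1 ∨ b.1 < c.1 ∧ c.1 < a.1))

/-- A placement of the three pieces: White king, White rook, Black king. -/
structure Pos where
  wk : Sq
  wr : Sq
  bk : Sq

/-- The White rook attacks the square `t` (the square of the rook itself is not attacked by it):
`t` is on the rook's file or rank and the White king is not in between.  (The Black king does not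
shield squares behind it: this notion is only used for squares of, or entered by, that king.) -/
def RookAttacks (p : Pos) (t : Sq) : Prop :=
  t ≠ p.wr ∧ (t.1 = p.wr.1 ∨ t.2 = p.wr.2) ∧ ¬ Between p.wr p.wk t

/-- `q` arises from `p` by a legal White move on the `m × n` board: a king move to a square of the
board that is not occupied by the rook and does not touch the Black king, or a rook move along a
file or rank to another, unoccupied square of the board with neither king in between. -/
def WhiteMove (m n : ℕ∞) (p q : Pos) : Prop :=
  q.bk = p.bk ∧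
  ((q.wr = p.wr ∧ q.wk ≠ p.wk ∧ Touch p.wk q.wk ∧ OnBoard m n q.wk ∧ q.wk ≠ p.wr ∧
      ¬ Touch q.wk p.bk) ∨
   (q.wk = p.wk ∧ q.wr ≠ p.wr ∧ (q.wr.1 = p.wr.1 ∨ q.wr.2 = p.wr.2) ∧ OnBoard m n q.wr ∧
      q.wr ≠ p.wk ∧ q.wr ≠ p.bk ∧ ¬ Between p.wr p.wk q.wr ∧ ¬ Between p.wr p.bk q.wr))

/-- `r` arises from `q` by a legal move of the Black king that stays on the `m × n` board: the new
square is one king's move away, does not touch the White king and is not attacked by the rook.
(If the new square is the rook's square, the move captures the rook.) -/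
def BlackMove (m n : ℕ∞) (q r : Pos) : Prop :=
  r.wk = q.wk ∧ r.wr = q.wr ∧ r.bk ≠ q.bk ∧ Touch q.bk r.bk ∧ OnBoard m n r.bk ∧
  ¬ Touch r.bk q.wk ∧ ¬ RookAttacks q r.bk

/-- The Black king can leave the board across the east edge (it stands on the last file) or across
the north edge (it stands on the last rank).  On a board unbounded in that direction there is no
such edge. -/
def CanExit (m n : ℕ∞) (q : Pos) : Prop :=
  (q.bk.1 : ℕ∞) = m ∨ (q.bk.2 : ℕ∞) = n

/-- Black is in check. -/
def InCheck (q : Pos) : Prop := RookAttacks q q.bk

/-- `WinsWithin m n k p`: with White to move in `p`, White can force checkmate on the `m × n` board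
within `k` of his moves.  White makes a move to some `q`; the Black king must then not be able to
leave the board; there must be a legal Black move unless Black is in check (no stalemate); and no
legal Black move may capture the rook, and each of them must lead to a position in which White
can force checkmate within `k - 1` moves.  (With no legal Black move this says that `q` is
checkmate.) -/
def WinsWithin (m n : ℕ∞) : ℕ → Pos → Prop
  | 0, _ => False
  | k + 1, p => ∃ q, WhiteMove m n p q ∧ ¬ CanExit m n q ∧
      (InCheck q ∨ ∃ r, BlackMove m n q r) ∧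
      (∀ r, BlackMove m n q r → r.bk ≠ q.wr) ∧
      (∀ r, BlackMove m n q r → WinsWithin m n k r)

/-- `CanForce m n p`: with White to move in `p`, White can force checkmate on the `m × n` board
(every play in which White follows a suitable strategy ends in checkmate after finitely many
moves; no bound on the number of moves is required). -/
inductive CanForce (m n : ℕ∞) : Pos → Prop
  | step (p q : Pos) (move : WhiteMove m n p q) (noExit : ¬ CanExit m n q)
      (noStale : InCheck q ∨ ∃ r, BlackMove m n q r)
      (noCapture : ∀ r, BlackMove m n q r → r.bk ≠ q.wr)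
      (next : ∀ r, BlackMove m n q r → CanForce m n r) : CanForce m n p

/-- The starting position: White king a1, White rook b2, Black king c3 (White to move). -/
def start : Pos := ⟨(1, 1), (2, 2), (3, 3)⟩

end Pool.Agent.N357.KRK
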