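import Pool.Agent.N357.KRK.Basic

/-!
# Sound checker for Black's safe sets (relative, clipped coordinates)

All coordinates of the White pieces are taken relative to the Black king and clipped to
`[-D, D]`; they are stored with offset `D`, so they lie in `0 .. 2 D`.
-/

namespace Pool.Agent.N357.KRK

/-- Bounded universal quantifier, evaluated by the kernel. -/
def allB (n : ℕ) (f : ℕ → Bool) : Bool := Nat.rec true (fun i ih => f i && ih) n

/-- Bounded existential quantifier, evaluated by the kernel. -/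
def anyB (n : ℕ) (f : ℕ → Bool) : Bool := Nat.rec false (fun i ih => f i || ih) n

theorem allB_spec {n : ℕ} {f : ℕ → Bool} (h : allB n f = true) : ∀ i < n, f i = true := by
  induction n with
  | zero => intro i hi; omega
  | succ n ih =>
    have h' : (f n && allB n f) = true := h
    rw [Bool.and_eq_true] at h'
    intro i hi
    rcases Nat.lt_succ_iff_lt_or_eq.1 hi with hi | rfl
    · exact ih h'.2 i hi
    · exact h'.1

theorem anyB_spec {n : ℕ} {f : ℕ → Bool} (h : anyB n f = true) : ∃ i < n, f i = true := by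
  induction n with
  | zero => exact absurd h (by simp [anyB])
  | succ n ih =>
    have h' : (f n || anyB n f) = true := h
    rw [Bool.or_eq_true] at h'
    rcases h' with h' | h'
    · exact ⟨n, Nat.lt_succ_self n, h'⟩
    · obtain ⟨i, hi, hf⟩ := ih h'
      exact ⟨i, hi.trans (Nat.lt_succ_self n), hf⟩

namespace Neg

/-- Clipped relative coordinate of `v` with respect to `b`, with offset `D`. -/
def cls (D v b : ℕ) : ℕ := min (2 * D) (v + D - b)

def forMv (D a e : ℕ) (P : ℕ → Bool) : Bool :=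
  bif Nat.beq a 0 then P 0 && (!(Nat.beq e 2) || P 1) else
  bif Nat.beq a (2 * D) then P (2 * D) && (!(Nat.beq e 0) || P (2 * D - 1)) else P (a + e - 1)

theorem forMv_spec {D v b v' b' e : ℕ} {P : ℕ → Bool} (hD : 3 ≤ D)
    (h : forMv D (cls D v b) e P = true) (he : e ≤ 2) (hv : v' + b + 1 = v + b' + e) :
    P (cls D v' b') = true := by
  unfold forMv at h
  rcases hb : Nat.beq (cls D v b) 0 with _ | _
  · rw [hb, cond_false] at h
    have hb0 : cls D v b ≠ 0 := fun h0 => by rw [h0] at hb; exact absurd hb (by decide)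
    rcases hc : Nat.beq (cls D v b) (2 * D) with _ | _
    · rw [hc, cond_false] at h
      have hc0 : cls D v b ≠ 2 * D := fun h0 => by
        rw [h0, Nat.beq_refl] at hc; exact absurd hc (by decide)
      have : cls D v' b' = cls D v b + e - 1 := by unfold cls at *; omega
      rw [this]; exact h
    · rw [hc, cond_true, Bool.and_eq_true, Bool.or_eq_true] at h
      have hc0 : cls D v b = 2 * D := Nat.eq_of_beq_eq_true hc
      obtain ⟨h1, h2⟩ := h
      rcases Nat.eq_zero_or_pos e with he0 | he0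
      · subst he0
        have h2' : P (2 * D - 1) = true := by
          rcases h2 with h2 | h2
          · exact absurd h2 (by decide)
          · exact h2
        have : cls D v' b' = 2 * D ∨ cls D v' b' = 2 * D - 1 := by unfold cls at *; omega
        rcases this with h' | h' <;> rw [h'] <;> assumption
      · have : cls D v' b' = 2 * D := by unfold cls at *; omega
        rw [this]; exact h1
  · rw [hb, cond_true, Bool.and_eq_true, Bool.or_eq_true] at h
    have hb0 : cls D v b = 0 := Nat.eq_of_beq_eq_true hb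
    obtain ⟨h1, h2⟩ := h
    rcases Nat.lt_or_ge e 2 with he2 | he2
    · have : cls D v' b' = 0 := by unfold cls at *; omega
      rw [this]; exact h1
    · have he' : e = 2 := by omega
      subst he'
      have h2' : P 1 = true := by
        rcases h2 with h2 | h2
        · exact absurd h2 (by decide)
        · exact h2
      have : cls D v' b' = 0 ∨ cls D v' b' = 1 := by unfold cls at *; omega
      rcases this with h' | h' <;> rw [h'] <;> assumption

def forRow (Y : ℕ) (fin : Bool) (c f : ℕ) (P : ℕ → Bool) : Bool :=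
  bif (!(Nat.ble Y c) || fin) then P (c + f - 1) else
  bif Nat.beq f 0 then P (Y - 1) && P Y else P Y

theorem forRow_spec {Y y y' f : ℕ} {fin : Bool} {P : ℕ → Bool} 
    (h : forRow Y fin (min Y y) f P = true) (hf : f ≤ 2) (hy : y' + 1 = y + f)
    (hfin : fin = true → y ≤ Y ∧ y' ≤ Y) : P (min Y y') = true := by
  unfold forRow at h
  rcases hb : (!(Nat.ble Y (min Y y)) || fin) with _ | _
  · rw [hb, cond_false] at h
    rw [Bool.or_eq_false_iff, Bool.not_eq_false', Nat.ble_eq] at hb
    obtain ⟨hb1, hb2⟩ := hb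
    rcases hc : Nat.beq f 0 with _ | _
    · rw [hc, cond_false] at h
      have hc0 : f ≠ 0 := fun h0 => by rw [h0] at hc; exact absurd hc (by decide)
      have : min Y y' = Y := by omega
      rw [this]; exact h
    · rw [hc, cond_true, Bool.and_eq_true] at h
      have : min Y y' = Y ∨ min Y y' = Y - 1 := by omega
      rcases this with h' | h' <;> rw [h']
      · exact h.2
      · exact h.1
  · rw [hb, cond_true] at h
    have : min Y y' = min Y y + f - 1 := by
      rw [Bool.or_eq_true, Bool.not_eq_true'] at hb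
      rcases hb with hb | hb
      · have : ¬ Y ≤ min Y y := fun hle => by
          rw [Nat.ble_eq_true_of_le hle] at hb; exact absurd hb (by decide)
        omega
      · have := hfin hb
        omega
    rw [this]; exact h

def exx (m D b a : ℕ) : Bool := Nat.ble (D + 1) (b + a) && Nat.ble (b + a) (m + D)

def exy (Y D : ℕ) (fin : Bool) (c a : ℕ) : Bool :=
  ((Nat.ble Y c && !fin) || Nat.ble (D + 1) (c + a)) && (!fin || Nat.ble (c + a) (Y + D))

def same (D ka kc ra rc : ℕ) : Bool :=
  Nat.beq ka ra && (Nat.beq kc rc && (Nat.ble 1 ka && (Nat.ble (ka + 1) (2 * D) &&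
    (Nat.ble 1 kc && Nat.ble (kc + 1) (2 * D)))))

def touch0 (D ka kc : ℕ) : Bool :=
  Nat.ble D (ka + 1) && (Nat.ble ka (D + 1) && (Nat.ble D (kc + 1) && Nat.ble kc (D + 1)))

def valid (m Y D : ℕ) (fin : Bool) (b c ka kc ra rc : ℕ) : Bool :=
  exx m D b ka && (exx m D b ra && (exy Y D fin c kc && (exy Y D fin c rc &&
    (!(same D ka kc ra rc) && (!(touch0 D ka kc) && !(Nat.beq ra D && Nat.beq rc D))))))

/-- The reply of the Black king by `(e - 1, f - 1)` is legal and safe. -/
def reply (m Y D : ℕ) (fin : Bool) (mem : ℕ → ℕ → ℕ → ℕ → ℕ → ℕ → Bool)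
    (b c ka kc ra rc e f : ℕ) : Bool :=
  Nat.ble 2 (b + e) && (Nat.ble (b + e) (m + 1) &&
  (((Nat.ble Y c && !fin) || Nat.ble 2 (c + f)) && ((!fin || Nat.ble (c + f) (Y + 1)) &&
  (!(Nat.ble ka (D + e) && (Nat.ble (D + e) (ka + 2) &&
      (Nat.ble kc (D + f) && Nat.ble (D + f) (kc + 2)))) &&
  ((Nat.beq (ra + 1) (D + e) && Nat.beq (rc + 1) (D + f)) ||
   ((!(Nat.beq (ra + 1) (D + e)) || (Nat.beq ka ra &&
      ((Nat.ble (rc + 1) kc && Nat.ble (kc + 2) (D + f)) ||
       (Nat.ble (D + f) kc && Nat.ble (kc + 1) rc)))) &&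
   ((!(Nat.beq (rc + 1) (D + f)) || (Nat.beq kc rc &&
      ((Nat.ble (ra + 1) ka && Nat.ble (ka + 2) (D + e)) ||
       (Nat.ble (D + e) ka && Nat.ble (ka + 1) ra)))) &&
   forRow Y fin c f fun c' =>
   forMv D ka (2 - e) fun ka' => forMv D kc (2 - f) fun kc' =>
   forMv D ra (2 - e) fun ra' => forMv D rc (2 - f) fun rc' =>
     !(valid m Y D fin (b + e - 1) c' ka' kc' ra' rc') ||
       mem (b + e - 1) c' ka' kc' ra' rc')))))))

def bsafe (m Y D : ℕ) (fin : Bool) (mem : ℕ → ℕ → ℕ → ℕ → ℕ → ℕ → Bool)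
    (b c ka kc ra rc : ℕ) : Bool :=
  Nat.beq b m || ((fin && Nat.beq c Y) ||
    anyB 9 fun i => !(Nat.beq i 4) && reply m Y D fin mem b c ka kc ra rc (i / 3) (i % 3))

/-- All White moves from the given abstract state are answered safely. -/
def okW (m Y D : ℕ) (fin : Bool) (mem : ℕ → ℕ → ℕ → ℕ → ℕ → ℕ → Bool)
    (b c ka kc ra rc : ℕ) : Bool :=
  (allB (2 * D + 1) fun a =>
    (Nat.beq a ra && (Nat.ble 1 ra && Nat.ble (ra + 1) (2 * D))) ||
    ((Nat.beq kc rc && (Nat.ble 1 rc && (Nat.ble (rc + 1) (2 * D) &&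
      ((Nat.ble (ra + 1) ka && Nat.ble (ka + 1) a) ||
       (Nat.ble (a + 1) ka && Nat.ble (ka + 1) ra))))) ||
    ((Nat.beq rc D && ((Nat.ble (ra + 1) D && Nat.ble (D + 1) a) ||
       (Nat.ble (a + 1) D && Nat.ble (D + 1) ra))) ||
    (!(valid m Y D fin b c ka kc a rc) || bsafe m Y D fin mem b c ka kc a rc)))) &&
  ((allB (2 * D + 1) fun a =>
    (Nat.beq a rc && (Nat.ble 1 rc && Nat.ble (rc + 1) (2 * D))) ||
    ((Nat.beq ka ra && (Nat.ble 1 ra && (Nat.ble (ra + 1) (2 * D) &&
      ((Nat.ble (rc + 1) kc && Nat.ble (kc + 1) a) ||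
       (Nat.ble (a + 1) kc && Nat.ble (kc + 1) rc))))) ||
    ((Nat.beq ra D && ((Nat.ble (rc + 1) D && Nat.ble (D + 1) a) ||
       (Nat.ble (a + 1) D && Nat.ble (D + 1) rc))) ||
    (!(valid m Y D fin b c ka kc ra a) || bsafe m Y D fin mem b c ka kc ra a)))) &&
  (allB 9 fun i => Nat.beq i 4 ||
    forMv D ka (i / 3) fun ka' => forMv D kc (i % 3) fun kc' =>
      !(valid m Y D fin b c ka' kc' ra rc) || bsafe m Y D fin mem b c ka' kc' ra rc))

/-- The whole check. -/
def check (m Y D : ℕ) (fin : Bool) (mem : ℕ → ℕ → ℕ → ℕ → ℕ → ℕ → Bool) : Bool :=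
  allB m fun b => allB Y fun c => allB (2 * D + 1) fun ka => allB (2 * D + 1) fun kc =>
  allB (2 * D + 1) fun ra => allB (2 * D + 1) fun rc =>
    !(mem (b + 1) (c + 1) ka kc ra rc) || okW m Y D fin mem (b + 1) (c + 1) ka kc ra rc

/-- Membership in a bit table, indexed by the square class of the Black king. -/
def tabMem (K : ℕ) (t : List (List ℕ)) (b c ka kc ra rc : ℕ) : Bool :=
  Nat.beq (Nat.land (Nat.shiftRight ((t.getD (b - 1) []).getD (c - 1) 0)
    (((ka * K + kc) * K + ra) * K + rc)) 1) 1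

end Neg

end Pool.Agent.N357.KRK
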