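import Pool.Agent.N357.KRK.Neg

/-! # Soundness of the checker -/

namespace Pool.Agent.N357.KRK.Neg

theorem beq_true {a b : ℕ} : Nat.beq a b = true ↔ a = b := by
  rw [Nat.beq_eq]

theorem exx_spec {m D b v : ℕ} (hD : 3 ≤ D) (h1 : 1 ≤ v) (h2 : v ≤ m) (hb1 : 1 ≤ b)
    (hb : b ≤ m) : exx m D b (cls D v b) = true := by
  simp only [exx, Bool.and_eq_true, Nat.ble_eq, cls]
  omega

theorem exy_spec {Y D y v : ℕ} {fin : Bool} (hD : 3 ≤ D) (h1 : 1 ≤ v)
    (h2 : fin = true → v ≤ Y) (hy1 : 1 ≤ y) (hy : fin = true → y ≤ Y) :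
    exy Y D fin (min Y y) (cls D v y) = true := by
  cases fin with
  | false =>
    simp only [exy, Bool.and_eq_true, Bool.or_eq_true, Nat.ble_eq, cls, Bool.not_false,
      Bool.true_or, and_true]
    omega
  | true =>
    have h2' := h2 rfl
    have hy' := hy rfl
    simp only [exy, Bool.and_eq_true, Nat.ble_eq, cls, Bool.not_true,
      Bool.false_or, Bool.and_false]
    omega

theorem same_spec {D b y kx ky rx ry : ℕ} (h : ¬ (kx = rx ∧ ky = ry)) :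
    same D (cls D kx b) (cls D ky y) (cls D rx b) (cls D ry y) = false := by
  rw [Bool.eq_false_iff]
  simp only [same, ne_eq, Bool.and_eq_true, Nat.ble_eq, beq_true, cls]
  omega

theorem touch0_spec {D b y kx ky : ℕ} (hD : 3 ≤ D)
    (h : ¬ (kx ≤ b + 1 ∧ b ≤ kx + 1 ∧ ky ≤ y + 1 ∧ y ≤ ky + 1)) :
    touch0 D (cls D kx b) (cls D ky y) = false := by
  rw [Bool.eq_false_iff]
  simp only [touch0, ne_eq, Bool.and_eq_true, Nat.ble_eq, cls]
  omega

theorem center_spec {D b y rx ry : ℕ} (hD : 3 ≤ D) (h : ¬ (rx = b ∧ ry = y)) :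
    (Nat.beq (cls D rx b) D && Nat.beq (cls D ry y) D) = false := by
  rw [Bool.eq_false_iff]
  simp only [ne_eq, Bool.and_eq_true, beq_true, cls]
  omega

/-- Real coordinates are consistent. -/
structure CoordOK (m Y : ℕ) (fin : Bool) (b y kx ky rx ry : ℕ) : Prop where
  b1 : 1 ≤ b
  bm : b ≤ m
  y1 : 1 ≤ y
  yY : fin = true → y ≤ Y
  kx1 : 1 ≤ kx
  kxm : kx ≤ m
  ky1 : 1 ≤ ky
  kyY : fin = true → ky ≤ Y
  rx1 : 1 ≤ rx
  rxm : rx ≤ m
  ry1 : 1 ≤ ry
  ryY : fin = true → ry ≤ Y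
  ne : ¬ (kx = rx ∧ ky = ry)
  bne : ¬ (rx = b ∧ ry = y)
  nt : ¬ (kx ≤ b + 1 ∧ b ≤ kx + 1 ∧ ky ≤ y + 1 ∧ y ≤ ky + 1)

theorem valid_spec {m Y D : ℕ} {fin : Bool} {b y kx ky rx ry : ℕ} (hD : 3 ≤ D)
    (h : CoordOK m Y fin b y kx ky rx ry) :
    valid m Y D fin b (min Y y) (cls D kx b) (cls D ky y) (cls D rx b) (cls D ry y) = true := by
  unfold valid
  rw [exx_spec hD h.kx1 h.kxm h.b1 h.bm, exx_spec hD h.rx1 h.rxm h.b1 h.bm,
    exy_spec hD h.ky1 h.kyY h.y1 h.yY, exy_spec hD h.ry1 h.ryY h.y1 h.yY,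
    same_spec h.ne, touch0_spec hD h.nt, center_spec hD h.bne]
  rfl

/-- The abstract state of real coordinates belongs to the table. -/
def AMem (Y D : ℕ) (mem : ℕ → ℕ → ℕ → ℕ → ℕ → ℕ → Bool) (b y kx ky rx ry : ℕ) : Prop :=
  mem b (min Y y) (cls D kx b) (cls D ky y) (cls D rx b) (cls D ry y) = true

theorem or_spec {a b : Bool} (h : (!a || b) = true) (ha : a = true) : b = true := by
  subst ha; simpa using h

/-- No attack on `(tx, ty)` in real coordinates. -/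
def NoAtt (kx ky rx ry tx ty : ℕ) : Prop :=
  (rx ≠ tx ∨ (kx = rx ∧ (ry < ky ∧ ky < ty ∨ ty < ky ∧ ky < ry))) ∧
  (ry ≠ ty ∨ (ky = ry ∧ (rx < kx ∧ kx < tx ∨ tx < kx ∧ kx < rx)))

theorem reply_spec {m Y D : ℕ} {fin : Bool} {mem : ℕ → ℕ → ℕ → ℕ → ℕ → ℕ → Bool}
    {b y kx ky rx ry e f : ℕ} (hD : 3 ≤ D) (hY : 2 ≤ Y)
    (h : CoordOK m Y fin b y kx ky rx ry) (he : e ≤ 2) (hf : f ≤ 2)
    (hr : reply m Y D fin mem b (min Y y) (cls D kx b) (cls D ky y) (cls D rx b) (cls D ry y)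
      e f = true) :
    ∃ tx ty, tx + 1 = b + e ∧ ty + 1 = y + f ∧ 1 ≤ tx ∧ tx ≤ m ∧ 1 ≤ ty ∧
      (fin = true → ty ≤ Y) ∧
      ¬ (tx ≤ kx + 1 ∧ kx ≤ tx + 1 ∧ ty ≤ ky + 1 ∧ ky ≤ ty + 1) ∧
      ((rx = tx ∧ ry = ty) ∨
        (NoAtt kx ky rx ry tx ty ∧ CoordOK m Y fin tx ty kx ky rx ry ∧
          AMem Y D mem tx ty kx ky rx ry)) := by
  unfold reply at hr
  simp only [Bool.and_eq_true (a := Nat.ble _ _), Nat.ble_eq] at hr
  obtain ⟨h1, h2, hr⟩ := hr
  rw [Bool.and_eq_true, Bool.and_eq_true, Bool.and_eq_true] at hr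
  obtain ⟨h3, h4, h5, hr⟩ := hr
  have hbe : 2 ≤ b + e := h1
  have hyf : 2 ≤ y + f := by
    have h3' : (Y ≤ min Y y) ∨ 2 ≤ min Y y + f := by
      rw [Bool.or_eq_true, Bool.and_eq_true, Nat.ble_eq, Nat.ble_eq] at h3
      exact h3.imp (fun h => h.1) id
    have := h.y1
    omega
  have hyY : fin = true → y + f ≤ Y + 1 := by
    intro hfin
    have := h.yY hfin
    rw [Bool.or_eq_true, Bool.not_eq_true', Nat.ble_eq] at h4
    rcases h4 with h4 | h4
    · rw [hfin] at h4; exact absurd h4 (by decide)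
    · omega
  have hnt : ¬ (b + e - 1 ≤ kx + 1 ∧ kx ≤ b + e - 1 + 1 ∧ y + f - 1 ≤ ky + 1 ∧
      ky ≤ y + f - 1 + 1) := by
    intro hc
    rw [Bool.not_eq_true', Bool.eq_false_iff] at h5
    apply h5
    simp only [Bool.and_eq_true, Nat.ble_eq, cls]
    omega
  refine ⟨b + e - 1, y + f - 1, by omega, by omega, by omega, by omega, by omega,
    fun hfin => by have := hyY hfin; omega, hnt, ?_⟩
  rw [Bool.or_eq_true] at hr
  rcases hr with hr | hr
  · left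
    rw [Bool.and_eq_true, beq_true, beq_true] at hr
    unfold cls at hr
    omega
  · by_cases hcap : rx = b + e - 1 ∧ ry = y + f - 1
    · exact Or.inl hcap
    right
    rw [Bool.and_eq_true, Bool.and_eq_true] at hr
    obtain ⟨h6, h7, h8⟩ := hr
    have hOK : CoordOK m Y fin (b + e - 1) (y + f - 1) kx ky rx ry :=
      { b1 := by omega
        bm := by omega
        y1 := by omega
        yY := fun hfin => by have := hyY hfin; omega
        kx1 := h.kx1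
        kxm := h.kxm
        ky1 := h.ky1
        kyY := h.kyY
        rx1 := h.rx1
        rxm := h.rxm
        ry1 := h.ry1
        ryY := h.ryY
        ne := h.ne
        bne := hcap
        nt := fun hc => hnt ⟨by omega, by omega, by omega, by omega⟩ }
    refine ⟨⟨?_, ?_⟩, hOK, ?_⟩
    · rw [Bool.or_eq_true, Bool.not_eq_true', Bool.and_eq_true, Bool.or_eq_true,
        Bool.and_eq_true, Bool.and_eq_true, Bool.eq_false_iff] at h6
      simp only [ne_eq, Nat.ble_eq, beq_true, cls] at h6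
      omega
    · rw [Bool.or_eq_true, Bool.not_eq_true', Bool.and_eq_true, Bool.or_eq_true,
        Bool.and_eq_true, Bool.and_eq_true, Bool.eq_false_iff] at h7
      simp only [ne_eq, Nat.ble_eq, beq_true, cls] at h7
      omega
    · have h9 := forRow_spec (y := y) (y' := y + f - 1) h8 hf (by omega)
        (fun hfin => ⟨h.yY hfin, by have := hyY hfin; omega⟩)
      have h10 := forMv_spec (v' := kx) (b' := b + e - 1) hD h9 (by omega) (by omega)
      have h11 := forMv_spec (v' := ky) (b' := y + f - 1) hD h10 (by omega) (by omega)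
      have h12 := forMv_spec (v' := rx) (b' := b + e - 1) hD h11 (by omega) (by omega)
      have h13 := forMv_spec (v' := ry) (b' := y + f - 1) hD h12 (by omega) (by omega)
      exact or_spec h13 (valid_spec hD hOK)

theorem bsafe_spec {m Y D : ℕ} {fin : Bool} {mem : ℕ → ℕ → ℕ → ℕ → ℕ → ℕ → Bool}
    {b y kx ky rx ry : ℕ} (hD : 3 ≤ D) (hY : 2 ≤ Y)
    (h : CoordOK m Y fin b y kx ky rx ry)
    (hr : bsafe m Y D fin mem b (min Y y) (cls D kx b) (cls D ky y) (cls D rx b) (cls D ry y)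
      = true) :
    b = m ∨ (fin = true ∧ y = Y) ∨
    ∃ e f tx ty, e ≤ 2 ∧ f ≤ 2 ∧ ¬ (e = 1 ∧ f = 1) ∧ tx + 1 = b + e ∧ ty + 1 = y + f ∧
      1 ≤ tx ∧ tx ≤ m ∧ 1 ≤ ty ∧ (fin = true → ty ≤ Y) ∧
      ¬ (tx ≤ kx + 1 ∧ kx ≤ tx + 1 ∧ ty ≤ ky + 1 ∧ ky ≤ ty + 1) ∧
      ((rx = tx ∧ ry = ty) ∨
        (NoAtt kx ky rx ry tx ty ∧ CoordOK m Y fin tx ty kx ky rx ry ∧
          AMem Y D mem tx ty kx ky rx ry)) := by
  unfold bsafe at hr
  rw [Bool.or_eq_true, Bool.or_eq_true, Bool.and_eq_true, beq_true, beq_true] at hr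
  rcases hr with hr | ⟨hr1, hr2⟩ | hr
  · exact Or.inl hr
  · right; left
    have := h.yY hr1
    exact ⟨hr1, by omega⟩
  · right; right
    obtain ⟨i, hi, hf⟩ := anyB_spec hr
    rw [Bool.and_eq_true, Bool.not_eq_true', Bool.eq_false_iff, ne_eq, beq_true] at hf
    obtain ⟨tx, ty, hh⟩ := reply_spec (e := i / 3) (f := i % 3) hD hY h (by omega) (by omega)
      hf.2
    exact ⟨i / 3, i % 3, tx, ty, by omega, by omega, by omega, hh⟩

theorem okW_king {m Y D : ℕ} {fin : Bool} {mem : ℕ → ℕ → ℕ → ℕ → ℕ → ℕ → Bool}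
    {b y kx ky rx ry : ℕ} (hD : 3 ≤ D)
    (hr : okW m Y D fin mem b (min Y y) (cls D kx b) (cls D ky y) (cls D rx b) (cls D ry y)
      = true) {kx' ky' : ℕ} (h1 : kx' ≤ kx + 1) (h2 : kx ≤ kx' + 1) (h3 : ky' ≤ ky + 1)
    (h4 : ky ≤ ky' + 1) (hne : ¬ (kx' = kx ∧ ky' = ky))
    (h' : CoordOK m Y fin b y kx' ky' rx ry) :
    bsafe m Y D fin mem b (min Y y) (cls D kx' b) (cls D ky' y) (cls D rx b) (cls D ry y)
      = true := by
  unfold okW at hr
  rw [Bool.and_eq_true, Bool.and_eq_true] at hr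
  have := allB_spec hr.2.2 ((kx' + 1 - kx) * 3 + (ky' + 1 - ky)) (by omega)
  rw [Bool.or_eq_true, beq_true] at this
  rcases this with h | h
  · exfalso; omega
  · have e1 : ((kx' + 1 - kx) * 3 + (ky' + 1 - ky)) / 3 = kx' + 1 - kx := by omega
    have e2 : ((kx' + 1 - kx) * 3 + (ky' + 1 - ky)) % 3 = ky' + 1 - ky := by omega
    rw [e1, e2] at h
    have h5 := forMv_spec (v' := kx') (b' := b) hD h (by omega) (by omega)
    have h6 := forMv_spec (v' := ky') (b' := y) hD h5 (by omega) (by omega)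
    exact or_spec h6 (valid_spec hD h')

theorem okW_rookX {m Y D : ℕ} {fin : Bool} {mem : ℕ → ℕ → ℕ → ℕ → ℕ → ℕ → Bool}
    {b y kx ky rx ry : ℕ} (hD : 3 ≤ D)
    (hr : okW m Y D fin mem b (min Y y) (cls D kx b) (cls D ky y) (cls D rx b) (cls D ry y)
      = true) {rx' : ℕ} (hne : rx' ≠ rx)
    (hb1 : ¬ (ky = ry ∧ (rx < kx ∧ kx < rx' ∨ rx' < kx ∧ kx < rx)))
    (hb2 : ¬ (y = ry ∧ (rx < b ∧ b < rx' ∨ rx' < b ∧ b < rx)))
    (h' : CoordOK m Y fin b y kx ky rx' ry) :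
    bsafe m Y D fin mem b (min Y y) (cls D kx b) (cls D ky y) (cls D rx' b) (cls D ry y)
      = true := by
  unfold okW at hr
  rw [Bool.and_eq_true, Bool.and_eq_true] at hr
  have := allB_spec hr.1 (cls D rx' b) (by unfold cls; omega)
  rw [Bool.or_eq_true, Bool.or_eq_true, Bool.or_eq_true] at this
  rcases this with h | h | h | h
  · exfalso
    simp only [Bool.and_eq_true, Nat.ble_eq, beq_true, cls] at h
    omega
  · exfalso
    simp only [Bool.and_eq_true, Bool.or_eq_true, Nat.ble_eq, beq_true, cls] at h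
    omega
  · exfalso
    simp only [Bool.and_eq_true, Bool.or_eq_true, Nat.ble_eq, beq_true, cls] at h
    omega
  · exact or_spec h (valid_spec hD h')

theorem okW_rookY {m Y D : ℕ} {fin : Bool} {mem : ℕ → ℕ → ℕ → ℕ → ℕ → ℕ → Bool}
    {b y kx ky rx ry : ℕ} (hD : 3 ≤ D)
    (hr : okW m Y D fin mem b (min Y y) (cls D kx b) (cls D ky y) (cls D rx b) (cls D ry y)
      = true) {ry' : ℕ} (hne : ry' ≠ ry)
    (hb1 : ¬ (kx = rx ∧ (ry < ky ∧ ky < ry' ∨ ry' < ky ∧ ky < ry)))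
    (hb2 : ¬ (b = rx ∧ (ry < y ∧ y < ry' ∨ ry' < y ∧ y < ry)))
    (h' : CoordOK m Y fin b y kx ky rx ry') :
    bsafe m Y D fin mem b (min Y y) (cls D kx b) (cls D ky y) (cls D rx b) (cls D ry' y)
      = true := by
  unfold okW at hr
  rw [Bool.and_eq_true, Bool.and_eq_true] at hr
  have := allB_spec hr.2.1 (cls D ry' y) (by unfold cls; omega)
  rw [Bool.or_eq_true, Bool.or_eq_true, Bool.or_eq_true] at this
  rcases this with h | h | h | h
  · exfalso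
    simp only [Bool.and_eq_true, Nat.ble_eq, beq_true, cls] at h
    omega
  · exfalso
    simp only [Bool.and_eq_true, Bool.or_eq_true, Nat.ble_eq, beq_true, cls] at h
    omega
  · exfalso
    simp only [Bool.and_eq_true, Bool.or_eq_true, Nat.ble_eq, beq_true, cls] at h
    omega
  · exact or_spec h (valid_spec hD h')

theorem check_spec {m Y D : ℕ} {fin : Bool} {mem : ℕ → ℕ → ℕ → ℕ → ℕ → ℕ → Bool}
    (hY : 2 ≤ Y) (hc : check m Y D fin mem = true) {b y kx ky rx ry : ℕ}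
    (h : CoordOK m Y fin b y kx ky rx ry) (hm : AMem Y D mem b y kx ky rx ry) :
    okW m Y D fin mem b (min Y y) (cls D kx b) (cls D ky y) (cls D rx b) (cls D ry y)
      = true := by
  unfold check at hc
  have hb1 := h.b1
  have hbm := h.bm
  have hy1 := h.y1
  have h1 := allB_spec hc (b - 1) (by omega)
  have h2 := allB_spec h1 (min Y y - 1) (by omega)
  have h3 := allB_spec h2 (cls D kx b) (by unfold cls; omega)
  have h4 := allB_spec h3 (cls D ky y) (by unfold cls; omega)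
  have h5 := allB_spec h4 (cls D rx b) (by unfold cls; omega)
  have h6 := allB_spec h5 (cls D ry y) (by unfold cls; omega)
  have e1 : b - 1 + 1 = b := by omega
  have e2 : min Y y - 1 + 1 = min Y y := by omega
  rw [e1, e2] at h6
  exact or_spec h6 hm

/-! ### Connection with the game -/

theorem onBoard_iff {m Y : ℕ} {fin : Bool} {s : Sq} :
    OnBoard (m : ℕ∞) (bif fin then (Y : ℕ∞) else ⊤) s ↔
      1 ≤ s.1 ∧ 1 ≤ s.2 ∧ s.1 ≤ m ∧ (fin = true → s.2 ≤ Y) := by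
  cases fin with
  | false => simp [OnBoard]
  | true => simp [OnBoard]

/-- The invariant. -/
def Inv (m Y D : ℕ) (fin : Bool) (mem : ℕ → ℕ → ℕ → ℕ → ℕ → ℕ → Bool) (p : Pos) : Prop :=
  CoordOK m Y fin p.bk.1 p.bk.2 p.wk.1 p.wk.2 p.wr.1 p.wr.2 ∧
  AMem Y D mem p.bk.1 p.bk.2 p.wk.1 p.wk.2 p.wr.1 p.wr.2

theorem white_bsafe {m Y D : ℕ} {fin : Bool} {mem : ℕ → ℕ → ℕ → ℕ → ℕ → ℕ → Bool}
    (hD : 3 ≤ D) (hY : 2 ≤ Y) (hc : check m Y D fin mem = true) {p q : Pos}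
    (hp : Inv m Y D fin mem p)
    (hq : WhiteMove (m : ℕ∞) (bif fin then (Y : ℕ∞) else ⊤) p q) :
    CoordOK m Y fin q.bk.1 q.bk.2 q.wk.1 q.wk.2 q.wr.1 q.wr.2 ∧
    bsafe m Y D fin mem q.bk.1 (min Y q.bk.2) (cls D q.wk.1 q.bk.1) (cls D q.wk.2 q.bk.2)
      (cls D q.wr.1 q.bk.1) (cls D q.wr.2 q.bk.2) = true := by
  obtain ⟨⟨kx, ky⟩, ⟨rx, ry⟩, ⟨b, y⟩⟩ := p
  obtain ⟨⟨kx', ky'⟩, ⟨rx', ry'⟩, ⟨b', y'⟩⟩ := q
  obtain ⟨hOK, hM⟩ := hp
  obtain ⟨h0, hq⟩ := hq
  simp only [Prod.mk.injEq] at h0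
  obtain ⟨rfl, rfl⟩ := h0
  have hW := check_spec hY hc hOK hM
  dsimp only at hOK hM hW ⊢
  rcases hq with ⟨h1, h2, h3, h4, h5, h6⟩ | ⟨h1, h2, h3, h4, h5, h6, h7, h8⟩
  · simp only [Prod.mk.injEq, ne_eq] at h1 h2 h5
    obtain ⟨rfl, rfl⟩ := h1
    obtain ⟨g1, g2, g3, g4⟩ := onBoard_iff.1 h4
    obtain ⟨t1, t2, t3, t4⟩ := h3
    dsimp only at g1 g2 g3 g4 t1 t2 t3 t4
    have hOK' : CoordOK m Y fin b' y' kx' ky' rx' ry' :=
      { hOK with
        kx1 := g1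
        kxm := g3
        ky1 := g2
        kyY := g4
        ne := h5
        nt := h6 }
    exact ⟨hOK', okW_king hD hW t2 t1 t4 t3 h2 hOK'⟩
  · simp only [Prod.mk.injEq, ne_eq] at h1 h2 h5 h6
    obtain ⟨rfl, rfl⟩ := h1
    obtain ⟨g1, g2, g3, g4⟩ := onBoard_iff.1 h4
    dsimp only at h3 g1 g2 g3 g4
    have hOK' : CoordOK m Y fin b' y' kx' ky' rx' ry' :=
      { hOK with
        rx1 := g1
        rxm := g3
        ry1 := g2
        ryY := g4
        ne := fun h => h5 ⟨h.1.symm, h.2.symm⟩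
        bne := h6 }
    refine ⟨hOK', ?_⟩
    simp only [Between] at h7 h8
    rcases h3 with rfl | rfl
    · refine okW_rookY hD hW (fun h => h2 ⟨rfl, h⟩) ?_ ?_ hOK'
      · rintro ⟨ha, hb⟩
        exact h7 (Or.inl ⟨ha.symm, ha, hb⟩)
      · rintro ⟨ha, hb⟩
        exact h8 (Or.inl ⟨ha.symm, ha, hb⟩)
    · refine okW_rookX hD hW (fun h => h2 ⟨h, rfl⟩) ?_ ?_ hOK'
      · rintro ⟨ha, hb⟩
        exact h7 (Or.inr ⟨ha.symm, ha, hb⟩)
      · rintro ⟨ha, hb⟩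
        exact h8 (Or.inr ⟨ha.symm, ha, hb⟩)

theorem not_canForce {m Y D : ℕ} {fin : Bool} {mem : ℕ → ℕ → ℕ → ℕ → ℕ → ℕ → Bool}
    (hD : 3 ≤ D) (hY : 2 ≤ Y) (hc : check m Y D fin mem = true) {p : Pos}
    (hp : Inv m Y D fin mem p) :
    ¬ CanForce (m : ℕ∞) (bif fin then (Y : ℕ∞) else ⊤) p := by
  refine not_canForce_of_invariant (Inv m Y D fin mem) ?_ hp
  intro p q hp hq
  obtain ⟨hOK, hS⟩ := white_bsafe hD hY hc hp hq
  rcases bsafe_spec hD hY hOK hS with h | ⟨h1, h2⟩ |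
    ⟨e, f, tx, ty, he, hf, hef, htx, hty, g1, g2, g3, g4, hnt, hh⟩
  · left; left; exact_mod_cast h
  · left; right; rw [h1, cond_true]; exact_mod_cast h2
  · right
    refine ⟨⟨q.wk, q.wr, (tx, ty)⟩, ⟨rfl, rfl, ?_, ?_, ?_, ?_, ?_⟩, ?_⟩
    · intro h
      have h1 : tx = q.bk.1 := by rw [← h]
      have h2 : ty = q.bk.2 := by rw [← h]
      omega
    · simp only [Touch]; omega
    · exact onBoard_iff.2 ⟨g1, g3, g2, g4⟩
    · simpa only [Touch] using hnt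
    · rintro ⟨ha, hb, hcb⟩
      simp only [ne_eq] at ha hb
      rcases hh with hh | ⟨⟨hn1, hn2⟩, _, _⟩
      · exact ha (Prod.ext hh.1.symm hh.2.symm)
      · simp only [Between] at hcb
        rcases hb with hb | hb
        · rcases hn1 with hn1 | ⟨hk, hn1⟩
          · exact hn1 hb.symm
          · exact hcb (Or.inl ⟨hk.symm, hk.trans hb.symm, hn1⟩)
        · rcases hn2 with hn2 | ⟨hk, hn2⟩
          · exact hn2 hb.symm
          · exact hcb (Or.inr ⟨hk.symm, hk.trans hb.symm, hn2⟩)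
    · rcases hh with hh | hh
      · left; exact Prod.ext hh.1.symm hh.2.symm
      · right; exact ⟨hh.2.1, hh.2.2⟩

end Pool.Agent.N357.KRK.Neg
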