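import Pool.Agent.N357.KRK.WinSound
import Pool.Agent.N357.KRK.WinTab

/-! # White wins on the `9 × 11` board -/

namespace Pool.Agent.N357.KRK.Win

open Pool.Agent.N357.KRK

theorem check_wtab : check wtab = true := by decide +kernel

theorem val_start : val wtab 3 3 2 (key 1 1 2 2) / 65536 = 39 := by decide +kernel

theorem winsWithin_nine_eleven : WinsWithin 9 11 39 start := by
  have h := val_start
  exact winsWithin_of_check check_wtab 39 3 3 1 1 2 2 (by decide) (by decide) (by decide)
    (by omega) (by omega)

end Pool.Agent.N357.KRK.Win
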