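import Pool.Agent.N357.KRK.Neg

/-!
# Sound checker for White's winning table on the `9 × 11` board
-/

namespace Pool.Agent.N357.KRK.Win

open Pool.Agent.N357.KRK

/-- The `i`-th 40-bit entry of a packed list. -/
def ent (C i : ℕ) : ℕ := Nat.land (Nat.shiftRight C (40 * i)) 1099511627775

/-- One step of the search in a list sorted in decreasing order. -/
def stp (C key s pos : ℕ) : ℕ :=
  bif Nat.ble (key + 1) (Nat.shiftRight (ent C (pos + s - 1)) 24) then pos + s else pos

def srch (C key : ℕ) : ℕ :=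
  stp C key 1 (stp C key 2 (stp C key 4 (stp C key 8 (stp C key 16 (stp C key 32
    (stp C key 64 (stp C key 128 0)))))))

def find1 (key e : ℕ) : ℕ := bif Nat.beq (e / 16777216) key then e % 16777216 else 0

def find (C key : ℕ) : ℕ := find1 key (ent C (srch C key))

/-- The value stored for the given placement (`0` if there is none). -/
def val (t : List (List (List ℕ))) (bx by' rx key : ℕ) : ℕ :=
  find (((t.getD (bx - 1) []).getD (by' - 1) []).getD (rx - 1) 0) key

def onb (x y : ℕ) : Bool := Nat.ble 1 x && (Nat.ble 1 y && (Nat.ble x 9 && Nat.ble y 11))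

def tch (a b c d : ℕ) : Bool :=
  Nat.ble a (c + 1) && (Nat.ble c (a + 1) && (Nat.ble b (d + 1) && Nat.ble d (b + 1)))

def eq2 (a b c d : ℕ) : Bool := Nat.beq a c && Nat.beq b d

def btw (ax ay cx cy ux uy : ℕ) : Bool :=
  (Nat.beq ax cx && (Nat.beq cx ux && ((Nat.ble (ay + 1) cy && Nat.ble (cy + 1) uy) ||
    (Nat.ble (uy + 1) cy && Nat.ble (cy + 1) ay)))) ||
  (Nat.beq ay cy && (Nat.beq cy uy && ((Nat.ble (ax + 1) cx && Nat.ble (cx + 1) ux) ||
    (Nat.ble (ux + 1) cx && Nat.ble (cx + 1) ax))))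

def att (kx ky rx ry tx ty : ℕ) : Bool :=
  !(eq2 tx ty rx ry) && ((Nat.beq tx rx || Nat.beq ty ry) && !(btw rx ry kx ky tx ty))

def wmove (kx ky rx ry bx by' kx' ky' rx' ry' : ℕ) : Bool :=
  (eq2 rx' ry' rx ry && (!(eq2 kx' ky' kx ky) && (tch kx ky kx' ky' && (onb kx' ky' &&
    (!(eq2 kx' ky' rx ry) && !(tch kx' ky' bx by')))))) ||
  (eq2 kx' ky' kx ky && (!(eq2 rx' ry' rx ry) && ((Nat.beq rx' rx || Nat.beq ry' ry) &&
    (onb rx' ry' && (!(eq2 rx' ry' kx ky) && (!(eq2 rx' ry' bx by') &&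
    (!(btw rx ry kx ky rx' ry') && !(btw rx ry bx by' rx' ry'))))))))

/-- The Black king may move to `(tx, ty)` (a neighbouring square). -/
def bleg (kx ky rx ry tx ty : ℕ) : Bool :=
  onb tx ty && (!(tch tx ty kx ky) && !(att kx ky rx ry tx ty))

/-- Check of one entry. -/
def chk (t : List (List (List ℕ))) (bx by' kx ky rx ry kx' ky' rx' ry' key' rank : ℕ) : Bool :=
  wmove kx ky rx ry bx by' kx' ky' rx' ry' && (onb kx' ky' && (onb rx' ry' &&
  (!(Nat.beq bx 9) && (!(Nat.beq by' 11) && (Nat.ble 1 rank &&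
  ((allB 9 fun i => Nat.beq i 4 ||
    (!(bleg kx' ky' rx' ry' (bx + i / 3 - 1) (by' + i % 3 - 1)) ||
    (!(eq2 (bx + i / 3 - 1) (by' + i % 3 - 1) rx' ry') &&
      (Nat.ble 65536 (val t (bx + i / 3 - 1) (by' + i % 3 - 1) rx' key') &&
       Nat.ble ((val t (bx + i / 3 - 1) (by' + i % 3 - 1) rx' key') / 65536 + 1) rank)))) &&
   (att kx' ky' rx' ry' bx by' ||
    anyB 9 fun i => !(Nat.beq i 4) && bleg kx' ky' rx' ry' (bx + i / 3 - 1) (by' + i % 3 - 1))))))))

def chkE (t : List (List (List ℕ))) (bx by' k v : ℕ) : Bool :=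
  chk t bx by' (k % 16) (k / 16 % 16) (k / 256 % 16) (k / 4096)
    (v % 16) (v / 16 % 16) (v / 256 % 16) (v / 4096 % 16) (v % 65536) (v / 65536)

/-- The whole check: all entries of all lists. -/
def check (t : List (List (List ℕ))) : Bool :=
  allB 9 fun bx => allB 11 fun by' => allB 9 fun rx => allB 256 fun i =>
    Nat.beq (ent (((t.getD bx []).getD by' []).getD rx 0) i) 0 ||
      chkE t (bx + 1) (by' + 1) (ent (((t.getD bx []).getD by' []).getD rx 0) i / 16777216)
        (ent (((t.getD bx []).getD by' []).getD rx 0) i % 16777216)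

end Pool.Agent.N357.KRK.Win
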