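import Pool.Agent.N357.KRK.WinCheck

/-! # Soundness of the checker for White's winning table -/

namespace Pool.Agent.N357.KRK.Win

open Pool.Agent.N357.KRK

theorem beq_true {a b : ℕ} : Nat.beq a b = true ↔ a = b := by
  rw [Nat.beq_eq]

theorem eq2_iff {a b c d : ℕ} : eq2 a b c d = true ↔ (a, b) = (c, d) := by
  simp only [eq2, Bool.and_eq_true, beq_true, Prod.mk.injEq]

theorem tch_iff {a b c d : ℕ} : tch a b c d = true ↔ Touch (a, b) (c, d) := by
  simp only [tch, Bool.and_eq_true, Nat.ble_eq, Touch]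

theorem btw_iff {ax ay cx cy ux uy : ℕ} :
    btw ax ay cx cy ux uy = true ↔ Between (ax, ay) (cx, cy) (ux, uy) := by
  simp only [btw, Bool.and_eq_true, Bool.or_eq_true, Nat.ble_eq, beq_true, Between]
  omega

theorem att_iff {kx ky rx ry tx ty : ℕ} {b : Sq} :
    att kx ky rx ry tx ty = true ↔ RookAttacks ⟨(kx, ky), (rx, ry), b⟩ (tx, ty) := by
  simp only [att, Bool.and_eq_true, Bool.or_eq_true, Bool.not_eq_true', Bool.eq_false_iff, ne_eq,
    eq2_iff, btw_iff, beq_true, RookAttacks]

theorem onb_iff {x y : ℕ} : onb x y = true ↔ OnBoard 9 11 (x, y) := by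
  simp only [onb, Bool.and_eq_true, Nat.ble_eq, OnBoard]
  have h1 : ((x : ℕ∞) ≤ 9) ↔ x ≤ 9 := by exact_mod_cast Iff.rfl
  have h2 : ((y : ℕ∞) ≤ 11) ↔ y ≤ 11 := by exact_mod_cast Iff.rfl
  rw [h1, h2]

theorem onb_nat {x y : ℕ} : onb x y = true ↔ 1 ≤ x ∧ 1 ≤ y ∧ x ≤ 9 ∧ y ≤ 11 := by
  simp only [onb, Bool.and_eq_true, Nat.ble_eq]

theorem wmove_iff {kx ky rx ry bx y kx' ky' rx' ry' : ℕ}
    (h : wmove kx ky rx ry bx y kx' ky' rx' ry' = true) :
    WhiteMove 9 11 ⟨(kx, ky), (rx, ry), (bx, y)⟩ ⟨(kx', ky'), (rx', ry'), (bx, y)⟩ := by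
  simp only [wmove, Bool.and_eq_true, Bool.or_eq_true, Bool.not_eq_true', Bool.eq_false_iff,
    ne_eq, eq2_iff, btw_iff, beq_true, tch_iff, onb_iff] at h
  exact ⟨rfl, h⟩

theorem bleg_iff {kx ky rx ry tx ty : ℕ} {b : Sq} :
    bleg kx ky rx ry tx ty = true ↔
      OnBoard 9 11 (tx, ty) ∧ ¬ Touch (tx, ty) (kx, ky) ∧
        ¬ RookAttacks ⟨(kx, ky), (rx, ry), b⟩ (tx, ty) := by
  simp only [bleg, Bool.and_eq_true, Bool.not_eq_true', Bool.eq_false_iff, ne_eq,
    onb_iff, tch_iff]
  rw [att_iff]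

theorem stp_le (C key s pos : ℕ) : stp C key s pos ≤ pos + s := by
  unfold stp
  rcases Nat.ble (key + 1) (Nat.shiftRight (ent C (pos + s - 1)) 24) with _ | _ <;> simp

theorem srch_le (C key : ℕ) : srch C key ≤ 255 := by
  unfold srch
  have h1 := stp_le C key 128 0
  have h2 := stp_le C key 64 (stp C key 128 0)
  have h3 := stp_le C key 32 (stp C key 64 (stp C key 128 0))
  have h4 := stp_le C key 16 (stp C key 32 (stp C key 64 (stp C key 128 0)))
  have h5 := stp_le C key 8 (stp C key 16 (stp C key 32 (stp C key 64 (stp C key 128 0))))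
  have h6 := stp_le C key 4 (stp C key 8 (stp C key 16 (stp C key 32 (stp C key 64
    (stp C key 128 0)))))
  have h7 := stp_le C key 2 (stp C key 4 (stp C key 8 (stp C key 16 (stp C key 32 (stp C key 64
    (stp C key 128 0))))))
  have h8 := stp_le C key 1 (stp C key 2 (stp C key 4 (stp C key 8 (stp C key 16 (stp C key 32
    (stp C key 64 (stp C key 128 0)))))))
  omega

theorem find_spec {C key : ℕ} (h : find C key ≠ 0) :
    ∃ i < 256, ent C i / 16777216 = key ∧ ent C i % 16777216 = find C key := by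
  refine ⟨srch C key, by have := srch_le C key; omega, ?_⟩
  unfold find find1 at h ⊢
  rcases hb : Nat.beq (ent C (srch C key) / 16777216) key with _ | _
  · rw [hb] at h; exact absurd rfl h
  · rw [beq_true] at hb
    simp [hb]

/-- The key of a placement. -/
def key (kx ky rx ry : ℕ) : ℕ := kx + 16 * ky + 256 * rx + 4096 * ry

theorem entry_spec {t : List (List (List ℕ))} (hc : check t = true) {bx y kx ky rx ry : ℕ}
    (hb : onb bx y = true) (hk : onb kx ky = true) (hr : onb rx ry = true)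
    (hv : val t bx y rx (key kx ky rx ry) ≠ 0) :
    chk t bx y kx ky rx ry (val t bx y rx (key kx ky rx ry) % 16)
      (val t bx y rx (key kx ky rx ry) / 16 % 16)
      (val t bx y rx (key kx ky rx ry) / 256 % 16)
      (val t bx y rx (key kx ky rx ry) / 4096 % 16)
      (val t bx y rx (key kx ky rx ry) % 65536)
      (val t bx y rx (key kx ky rx ry) / 65536) = true := by
  rw [onb_nat] at hb hk hr
  unfold val at hv ⊢
  obtain ⟨i, hi, h1, h2⟩ := find_spec hv
  have h3 := allB_spec hc (bx - 1) (by omega)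
  have h4 := allB_spec h3 (y - 1) (by omega)
  have h5 := allB_spec h4 (rx - 1) (by omega)
  have h6 := allB_spec h5 i hi
  rw [Bool.or_eq_true, beq_true] at h6
  rcases h6 with h6 | h6
  · rw [h6] at h2
    exact absurd h2.symm hv
  · rw [h1, h2] at h6
    have e1 : bx - 1 + 1 = bx := by omega
    have e2 : y - 1 + 1 = y := by omega
    rw [e1, e2] at h6
    unfold chkE at h6
    have k1 : key kx ky rx ry % 16 = kx := by unfold key; omega
    have k2 : key kx ky rx ry / 16 % 16 = ky := by unfold key; omega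
    have k3 : key kx ky rx ry / 256 % 16 = rx := by unfold key; omega
    have k4 : key kx ky rx ry / 4096 = ry := by unfold key; omega
    rw [k1, k2, k3, k4] at h6
    exact h6

theorem winsWithin_of_check {t : List (List (List ℕ))} (hc : check t = true) :
    ∀ (R bx y kx ky rx ry : ℕ), onb bx y = true → onb kx ky = true → onb rx ry = true →
      65536 ≤ val t bx y rx (key kx ky rx ry) →
      val t bx y rx (key kx ky rx ry) / 65536 ≤ R →
      WinsWithin 9 11 R ⟨(kx, ky), (rx, ry), (bx, y)⟩ := by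
  intro R
  induction R with
  | zero =>
    intro bx y kx ky rx ry _ _ _ h1 h2
    exfalso; omega
  | succ R ih =>
    intro bx y kx ky rx ry hb hk hr h1 h2
    have hE := entry_spec hc hb hk hr (by omega)
    generalize hv : val t bx y rx (key kx ky rx ry) = v at hE h1 h2
    unfold chk at hE
    rw [Bool.and_eq_true, Bool.and_eq_true, Bool.and_eq_true, Bool.and_eq_true, Bool.and_eq_true,
      Bool.and_eq_true, Bool.and_eq_true] at hE
    obtain ⟨c1, c2, c3, c4, c5, c6, c7, c8⟩ := hE
    rw [Bool.not_eq_true', Bool.eq_false_iff, ne_eq, beq_true] at c4 c5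
    rw [Nat.ble_eq] at c6
    have hkey : v % 65536 = key (v % 16) (v / 16 % 16) (v / 256 % 16) (v / 4096 % 16) := by
      unfold key; omega
    have hbn := onb_nat.1 hb
    refine ⟨⟨(v % 16, v / 16 % 16), (v / 256 % 16, v / 4096 % 16), (bx, y)⟩, wmove_iff c1,
      ?_, ?_, ?_, ?_⟩
    · rintro (h | h)
      · exact c4 (by exact_mod_cast h)
      · exact c5 (by exact_mod_cast h)
    · rw [Bool.or_eq_true] at c8
      rcases c8 with c8 | c8
      · left; exact att_iff.1 c8
      · right
        obtain ⟨i, hi, hf⟩ := anyB_spec c8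
        rw [Bool.and_eq_true, Bool.not_eq_true', Bool.eq_false_iff, ne_eq, beq_true] at hf
        obtain ⟨hf1, hf2⟩ := hf
        rw [bleg_iff (b := (bx, y))] at hf2
        refine ⟨⟨(v % 16, v / 16 % 16), (v / 256 % 16, v / 4096 % 16),
          (bx + i / 3 - 1, y + i % 3 - 1)⟩, rfl, rfl, ?_, ?_, hf2.1, hf2.2.1, hf2.2.2⟩
        · simp only [ne_eq, Prod.mk.injEq]
          omega
        · simp only [Touch]
          omega
    · rintro ⟨k', r', ⟨tx, ty⟩⟩ ⟨e1, e2, hne, ht, hon, hnt, hna⟩
      dsimp only at e1 e2 hne ht hon hnt hna ⊢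
      simp only [Touch] at ht
      simp only [ne_eq, Prod.mk.injEq] at hne
      have hi := allB_spec c7 ((tx + 1 - bx) * 3 + (ty + 1 - y)) (by omega)
      have a1 : bx + ((tx + 1 - bx) * 3 + (ty + 1 - y)) / 3 - 1 = tx := by omega
      have a2 : y + ((tx + 1 - bx) * 3 + (ty + 1 - y)) % 3 - 1 = ty := by omega
      rw [a1, a2, Bool.or_eq_true, Bool.or_eq_true, beq_true, Bool.not_eq_true',
        Bool.and_eq_true, Bool.not_eq_true', Bool.eq_false_iff, Bool.eq_false_iff] at hi
      rcases hi with hi | hi | hi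
      · exfalso; omega
      · exact absurd ((bleg_iff (b := (bx, y))).2 ⟨hon, hnt, hna⟩) hi
      · exact fun h => hi.1 (eq2_iff.2 h)
    · rintro ⟨k', r', ⟨tx, ty⟩⟩ ⟨e1, e2, hne, ht, hon, hnt, hna⟩
      dsimp only at e1 e2 hne ht hon hnt hna ⊢
      subst e1 e2
      simp only [Touch] at ht
      simp only [ne_eq, Prod.mk.injEq] at hne
      have hi := allB_spec c7 ((tx + 1 - bx) * 3 + (ty + 1 - y)) (by omega)
      have a1 : bx + ((tx + 1 - bx) * 3 + (ty + 1 - y)) / 3 - 1 = tx := by omega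
      have a2 : y + ((tx + 1 - bx) * 3 + (ty + 1 - y)) % 3 - 1 = ty := by omega
      rw [a1, a2, Bool.or_eq_true, Bool.or_eq_true, beq_true, Bool.not_eq_true',
        Bool.and_eq_true, Bool.and_eq_true, Nat.ble_eq, Nat.ble_eq, Bool.eq_false_iff] at hi
      rcases hi with hi | hi | hi
      · exfalso; omega
      · exact absurd ((bleg_iff (b := (bx, y))).2 ⟨hon, hnt, hna⟩) hi
      · obtain ⟨_, hi1, hi2⟩ := hi
        rw [hkey] at hi1 hi2
        exact ih tx ty _ _ _ _ (onb_iff.2 hon) c2 c3 hi1 (by omega)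

end Pool.Agent.N357.KRK.Win
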